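import Mathlib
import Pool.Agent.Q278.RS.Fin3

/-!
# Weighted sums of squares of `R_k` and `W_k` modulo `16 n` and `8 n`

`∑_{k<n} (2k+1) R_k² ≡ n² (mod 16 n)` and `∑_{k<n} (2k+1) W_k² ≡ n² (mod 8 n)` for all `n ≥ 1`.

Proof. With the central Delannoy numbers `D_n` there are first order relations
`(2n+1) R_{n+1} = (2n+3) R_n + D_{n+1} + D_n` and `(2n-1) W_{n+1} = (2n+5) W_n + 3 (D_{n+1} + D_n)`,
and both sums have closed forms: `8 ∑_{k<n} (2k+1) R_k² = n (n (7 R_n² - 2 R_n R_{n-1} - R_{n-1}²)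
- 4 (R_n + R_{n-1}) (R_n + D_n))`, and `8 (1 - 4n²)² ∑_{k<n} (2k+1) W_k²` is `n` times a quadratic
form in `W_n, W_{n-1}, D_n` with coefficients polynomials in `n`. So both congruences are statements
on `R_n, W_n, D_n` modulo `128`. As `D_n = ∑ C(n,k)² 2^k`, the residue of `D_n` modulo `128` depends
on `C(n,1), …, C(n,6)` only, and `R_n, W_n` follow from the first order relations as `2n ± 1` are
invertible; all is periodic with period `512`, and the period is checked by the kernel.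
-/

set_option autoImplicit false

namespace Pool.Agent.Results.MP_c292ad_nt.BothCongruences

open Finset

/-- `R_n = ∑_{k=0}^n C(n+k,2k) C(2k,k) / (2k-1)`. -/
def R (n : ℕ) : ℚ :=
  ∑ k ∈ range (n + 1), (Nat.choose (n + k) (2 * k) : ℚ) * (Nat.choose (2 * k) k : ℚ) *
    (1 / (2 * (k : ℚ) - 1))

/-- `W_n = ∑_{k=0}^n C(n+k,2k) C(2k,k) 3 / (2k-3)`. -/
def W (n : ℕ) : ℚ :=
  ∑ k ∈ range (n + 1), (Nat.choose (n + k) (2 * k) : ℚ) * (Nat.choose (2 * k) k : ℚ) *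
    (3 / (2 * (k : ℚ) - 3))

/-- **Main result.** Both congruences hold for every positive integer `n`: there are integers
`t, t'` with `∑_{k<n} (2k+1) R_k² = n² + 16 n t` and `∑_{k<n} (2k+1) W_k² = n² + 8 n t'`. -/
theorem result : ∀ n : ℕ, 1 ≤ n →
    (∃ t : ℤ, ∑ k ∈ range n, (2 * (k : ℚ) + 1) * R k ^ 2 = (n : ℚ) ^ 2 + 16 * n * t) ∧
    (∃ t : ℤ, ∑ k ∈ range n, (2 * (k : ℚ) + 1) * W k ^ 2 = (n : ℚ) ^ 2 + 8 * n * t) := by
  intro n hn
  have hR : ∀ k, R k = Pool.Agent.Q278.RS.R 0 k := by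
    intro k
    unfold R Pool.Agent.Q278.RS.R Pool.Agent.Q278.RS.F Pool.Agent.Q278.RS.c
    refine sum_congr rfl fun j _ => ?_
    push_cast
    ring
  have hW : ∀ k, W k = Pool.Agent.Q278.RS.W k := by
    intro k
    unfold W Pool.Agent.Q278.RS.W Pool.Agent.Q278.RS.R Pool.Agent.Q278.RS.F Pool.Agent.Q278.RS.c
    rw [mul_sum]
    refine sum_congr rfl fun j _ => ?_
    push_cast
    have : 2 * (j : ℚ) - 2 * 1 - 1 = 2 * j - 3 := by ring
    rw [this]
    ring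
  refine ⟨?_, ?_⟩
  · obtain ⟨t, ht⟩ := Pool.Agent.Q278.RS.first n hn
    refine ⟨t, ?_⟩
    rw [← ht]
    unfold Pool.Agent.Q278.RS.S
    have : ∀ k ∈ range n, (2 * (k : ℚ) + 1) * R k ^ 2 =
        (2 * (k : ℚ) + 1) * (Pool.Agent.Q278.RS.R 0 k * Pool.Agent.Q278.RS.R 0 k) := fun k _ => by
      rw [hR, pow_two]
    rw [sum_congr rfl this]
    ring
  · obtain ⟨t, ht⟩ := Pool.Agent.Q278.RS.second n hn
    refine ⟨t, ?_⟩
    rw [← ht]
    unfold Pool.Agent.Q278.RS.S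
    have : ∀ k ∈ range n, (2 * (k : ℚ) + 1) * W k ^ 2 =
        (2 * (k : ℚ) + 1) * (Pool.Agent.Q278.RS.W k * Pool.Agent.Q278.RS.W k) := fun k _ => by
      rw [hW, pow_two]
    rw [sum_congr rfl this]
    ring

end Pool.Agent.Results.MP_c292ad_nt.BothCongruences
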